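import Pool.Agent.Helper36.JJ.Defs
import Pool.Agent.Helper22.Pin.C2
import Pool.Agent.Helper44.Pin.QJ1

/-!
# JJ-13: the rows of the rigidity matrix at generic points (helper21)
-/

set_option autoImplicit false

namespace Pool.Agent.Helper36.JJ

open Finset Module
open Pool.Agent.Helper36.Pin

variable {V : Type} [Fintype V] [DecidableEq V]

theorem aeval_lenP (z : V × Fin 2 → ℝ) (v w : V) :
    MvPolynomial.aeval z (lenP v w) = dsq (cfg z v) (cfg z w) := by
  simp [lenP, dsq, cfg]

theorem aeval_lenE_mk (z : V × Fin 2 → ℝ) (v w : V) :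
    MvPolynomial.aeval z (lenE s(v, w)) = dsq (cfg z v) (cfg z w) := by
  unfold lenE
  rw [aeval_lenP]
  have h : s((Quot.out s(v, w)).1, (Quot.out s(v, w)).2) = s(v, w) := Quot.out_eq _
  rcases Sym2.eq_iff.1 h with ⟨h1, h2⟩ | ⟨h1, h2⟩
  · rw [h1, h2]
  · rw [h1, h2]
    simp only [dsq]
    ring

theorem grad_lenE (z : V × Fin 2 → ℝ) (e : Sym2 V) :
    grad (lenE e) z = (2 : ℝ) • rowR (cfg z) e := by
  unfold lenE rowR
  generalize (Quot.out e).1 = v
  generalize (Quot.out e).2 = w
  funext u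
  obtain ⟨u, i⟩ := u
  simp only [grad, lenP, row, Pi.smul_apply, smul_eq_mul, cfg]
  fin_cases i <;>
  · simp [MvPolynomial.pderiv_X, Pi.single_apply, Prod.ext_iff, Derivation.leibniz_pow]
    by_cases h1 : v = u <;> by_cases h2 : w = u <;>
      simp [h1, h2, eq_comm (a := u)]

theorem rowR_mk (q : V → Fin 2 → ℝ) (v w : V) : rowR q s(v, w) = row q v w := by
  unfold rowR
  have h : s((Quot.out s(v, w)).1, (Quot.out s(v, w)).2) = s(v, w) := Quot.out_eq _
  rcases Sym2.eq_iff.1 h with ⟨h1, h2⟩ | ⟨h1, h2⟩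
  · rw [h1, h2]
  · rw [h1, h2]
    funext u
    simp only [row]
    ring

private theorem gram {K m n : Type} [Field K] [LinearOrder K] [IsStrictOrderedRing K]
    [Fintype m] [Fintype n] [DecidableEq m] (M : Matrix m n K) :
    (M * M.transpose).det ≠ 0 ↔ LinearIndependent K (fun i => M i) := by
  rw [Fintype.linearIndependent_iff]
  have hsum : ∀ g : m → K, ∑ i, g i • M i = Matrix.vecMul g M := by
    intro g
    rw [Matrix.vecMul_eq_sum]
  constructor
  · intro hdet g hg
    by_contra hne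
    push Not at hne
    apply hdet
    apply Matrix.exists_vecMul_eq_zero_iff.1
    refine ⟨g, fun h => ?_, ?_⟩
    · obtain ⟨i, hi⟩ := hne
      exact hi (congrFun h i)
    · rw [← Matrix.vecMul_vecMul, ← hsum, hg, Matrix.zero_vecMul]
  · intro hli hdet
    obtain ⟨g, hg0, hg⟩ := Matrix.exists_vecMul_eq_zero_iff.2 hdet
    apply hg0
    funext i
    apply hli g _ i
    rw [hsum]
    have h1 : dotProduct (Matrix.vecMul g M) (Matrix.vecMul g M) = 0 := by
      have h2 : dotProduct (Matrix.vecMul g (M * M.transpose)) g = 0 := by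
        rw [hg, zero_dotProduct]
      rw [← Matrix.vecMul_vecMul, Matrix.vecMul_transpose] at h2
      rw [← h2, dotProduct_comm (M.mulVec _) g, Matrix.dotProduct_mulVec]
    exact dotProduct_self_eq_zero.1 h1

private noncomputable def RM {S : Type} [CommRing S] (F : Finset (Sym2 V)) (z : V → Fin 2 → S) :
    Matrix F (V × Fin 2) S :=
  fun e => row z (Quot.out (e : Sym2 V)).1 (Quot.out (e : Sym2 V)).2

theorem rows_generic (F : Finset (Sym2 V)) (hF : Sparse F) (p : V → Fin 2 → ℝ)
    (hp : Generic p) : LinearIndependent ℝ (fun e : F => rowR p (e : Sym2 V)) := by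
  classical
  obtain ⟨p₀, hp₀⟩ := laman F hF
  let Mp : Matrix F (V × Fin 2) (MvPolynomial (V × Fin 2) ℚ) := fun e =>
    row (fun v i => MvPolynomial.X (v, i)) (Quot.out (e : Sym2 V)).1 (Quot.out (e : Sym2 V)).2
  let D := (Mp * Mp.transpose).det
  have hmap : ∀ {S : Type} [CommRing S] [Algebra ℚ S] (z : V → Fin 2 → S),
      MvPolynomial.aeval (fun x : V × Fin 2 => z x.1 x.2) D =
        (RM F z * (RM F z).transpose).det := by
    intro S _ _ z
    have h1 : Mp.map (MvPolynomial.aeval (R := ℚ) (fun x : V × Fin 2 => z x.1 x.2)) =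
        RM F z := by
      ext e u
      simp only [Matrix.map_apply, Mp, RM, row, map_mul, map_sub, MvPolynomial.aeval_X]
      split_ifs <;> simp
    rw [← h1]
    simp only [D]
    rw [AlgHom.map_det, AlgHom.mapMatrix_apply, Matrix.map_mul, Matrix.transpose_map]
  have h1 : MvPolynomial.aeval (fun x : V × Fin 2 => p₀ x.1 x.2) D ≠ 0 := by
    rw [hmap p₀]
    exact (gram (RM F p₀)).2 hp₀
  have h2 := generic_ne p hp D _ h1
  rw [hmap p] at h2
  exact (gram (RM F p)).1 h2

end Pool.Agent.Helper36.JJ
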