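import Pool.Agent.Helper36.JJ.Defs
import Pool.Agent.Helper22.Pin.QB
import Pool.Agent.Helper33.JJ.Circuits
import Pool.Agent.Helper33.JJ.GoodSets
import Pool.Agent.Helper10.JJ.Counting

/-!
# JJ-7: no circuit crosses a maximal good set (helper21)
-/

set_option autoImplicit false

namespace Pool.Agent.Helper36.JJ

open Finset Module
open Pool.Agent.Helper36.Pin

variable {V : Type} [Fintype V] [DecidableEq V]

theorem caseB2 (G : SimpleGraph V) (X Y : Finset V) (hG : GR G X) (hYX : Y ⊆ X) (hne : Y ≠ X)
    (hY : Good (edges G ∩ Y.sym2) Y)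
    (hno : ∀ C ⊆ edges G ∩ X.sym2, Circ C → (C ∩ Y.sym2).Nonempty → C ⊆ Y.sym2) : False := by
  classical
  obtain ⟨h3c, hrig, hred⟩ := hG
  set E := edges G ∩ X.sym2 with hE
  set F := edges G ∩ Y.sym2 with hF
  have hdE : ∀ e ∈ E, ¬ e.IsDiag := fun e he => edges_not_diag (mem_inter.1 he).1
  have hdF : ∀ e ∈ F, ¬ e.IsDiag := fun e he => edges_not_diag (mem_inter.1 he).1
  have hFE : F ⊆ E := by
    intro e he
    rw [hF, mem_inter] at he
    rw [hE, mem_inter]
    exact ⟨he.1, Finset.sym2_mono hYX he.2⟩
  set R := E \ F with hR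
  have hRE : R ⊆ E := sdiff_subset
  have hRY : ∀ e ∈ R, e ∉ Y.sym2 := by
    intro e he h
    rw [hR, mem_sdiff] at he
    exact he.2 (mem_inter.2 ⟨(mem_inter.1 he.1).1, h⟩)
  have hRof : ∀ e ∈ E, e ∉ Y.sym2 → e ∈ R := by
    intro e he h
    rw [hR, mem_sdiff]
    exact ⟨he, fun h' => h (mem_inter.1 h').2⟩
  have hY4 : 4 ≤ Y.card := hY.four_le hdF
  -- the rank splits
  have hsplit : rk E = rk F + rk R := by
    apply le_antisymm
    · have h1 := rk_union_le F R
      rwa [union_sdiff_of_subset hFE] at h1
    · obtain ⟨B1, hB1F, hB1, hc1⟩ := ModE.exists_sparse F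
      obtain ⟨B2, hB2R, hB2, hc2⟩ := ModE.exists_sparse R
      have hdB : ∀ e ∈ B1 ∪ B2, ¬ e.IsDiag := by
        intro e he
        rcases mem_union.1 he with h | h
        · exact hB1.1 e h
        · exact hB2.1 e h
      have hsub : B1 ∪ B2 ⊆ E := union_subset (hB1F.trans hFE) (hB2R.trans hRE)
      have hsp : Sparse (B1 ∪ B2) := by
        by_contra hns
        obtain ⟨C, hCB, hC⟩ := exists_circ hdB hns
        by_cases hCY : (C ∩ Y.sym2).Nonempty
        · have h1 := hno C (hCB.trans hsub) hC hCY
          apply hC.2.1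
          apply ModE.Sparse.subset hB1
          intro e he
          rcases mem_union.1 (hCB he) with h | h
          · exact h
          · exact absurd (h1 he) (hRY e (hB2R h))
        · rw [not_nonempty_iff_eq_empty] at hCY
          apply hC.2.1
          apply ModE.Sparse.subset hB2
          intro e he
          rcases mem_union.1 (hCB he) with h | h
          · exfalso
            have h2 : e ∈ C ∩ Y.sym2 := mem_inter.2 ⟨he, (mem_inter.1 (hB1F h)).2⟩
            rw [hCY] at h2
            exact absurd h2 (notMem_empty e)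
          · exact h
      have hdis : Disjoint B1 B2 := by
        rw [disjoint_left]
        intro e h1 h2
        exact hRY e (hB2R h2) (mem_inter.1 (hB1F h1)).2
      have h3 := ModE.card_le_rk hsub hsp
      rw [card_union_of_disjoint hdis, hc1, hc2] at h3
      exact h3
  -- no coloops in R
  have hnoc : ∀ e ∈ R, rk (R.erase e) = rk R := by
    intro e he
    have heE := hRE he
    have h1 := hred e heE
    obtain ⟨C, hCE, hC, heC⟩ := exists_circ_mem hdE heE (by omega)
    have hCY : ¬ (C ∩ Y.sym2).Nonempty := by
      intro h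
      exact hRY e he (hno C hCE hC h heC)
    rw [not_nonempty_iff_eq_empty] at hCY
    have hCR : C ⊆ R := by
      intro f hf
      apply hRof f (hCE hf)
      intro h
      have h2 : f ∈ C ∩ Y.sym2 := mem_inter.2 ⟨hf, h⟩
      rw [hCY] at h2
      exact absurd h2 (notMem_empty f)
    have h3 := rk_insert_of_circ hC heC (erase_subset_erase e hCR)
    rw [insert_erase he] at h3
    exact h3.symm
  -- the graph of R
  let G' : SimpleGraph V := SimpleGraph.fromEdgeSet (R : Set (Sym2 V))
  have hedges : edges G' = R := by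
    ext e
    rw [mem_edges, SimpleGraph.edgeSet_fromEdgeSet]
    constructor
    · intro h
      exact h.1
    · intro h
      exact ⟨h, hdE e (hRE h)⟩
  have hcol : coloops G' = ∅ := by
    rw [eq_empty_iff_forall_notMem]
    intro e he
    unfold coloops at he
    rw [mem_filter, hedges] at he
    have := hnoc e he.1
    omega
  have hcore : core G' = R := by
    unfold core
    rw [hcol, hedges, sdiff_empty]
  have hcomps : Comps R (blocks G') := by
    have := comps_blocks G'
    rwa [hcore] at this
  have hFpos : rk F + 3 = 2 * Y.card := hY.rigid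
  refine counting G X h3c (insert Y (blocks G')) ∅ ∅ (by simp) (empty_subset _) (empty_subset _)
    (empty_subset _) ?_ ?_ ?_
  · intro Z hZ
    rcases mem_insert.1 hZ with rfl | hZ
    · exact ⟨hY4, hYX, hne⟩
    · have hZ4 := block_card hZ
      have hZr := hcomps.rigid Z hZ
      refine ⟨hZ4, ?_, ?_⟩
      · intro w hw
        by_contra hwX
        have h1 : R ∩ Z.sym2 ⊆ (Z.erase w).sym2 := by
          intro e
          induction e using Sym2.ind with
          | _ a b =>
            intro he
            rw [mem_inter, mk_mem_sym2] at he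
            rw [mk_mem_sym2, mem_erase, mem_erase]
            have h2 := (mem_inter.1 (hRE he.1)).2
            rw [mk_mem_sym2] at h2
            refine ⟨⟨?_, he.2.1⟩, ⟨?_, he.2.2⟩⟩
            · rintro rfl; exact hwX h2.1
            · rintro rfl; exact hwX h2.2
        have h3 : (Z.erase w).card = Z.card - 1 := card_erase_of_mem hw
        have h4 := rk_inside_le _ (Z.erase w) (by omega) h1
        omega
      · rintro rfl
        have h5 : rk (R ∩ Z.sym2) ≤ rk R := rk_mono inter_subset_left
        omega
  · intro u hu w hw huw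
    right
    have he : s(u, w) ∈ E := mem_inter.2 ⟨mem_edges_mk.2 huw, mk_mem_sym2.2 ⟨hu, hw⟩⟩
    by_cases hYm : s(u, w) ∈ Y.sym2
    · exact ⟨Y, mem_insert_self _ _, mk_mem_sym2.1 hYm⟩
    · obtain ⟨Z, hZ, hZe⟩ := hcomps.cover _ (hRof _ he hYm) (hdE _ he)
      exact ⟨Z, mem_insert_of_mem hZ, mk_mem_sym2.1 hZe⟩
  · have hYb : Y ∉ blocks G' := by
      intro h
      have h1 := hcomps.rigid Y h
      have h2 : R ∩ Y.sym2 = ∅ := by
        rw [eq_empty_iff_forall_notMem]
        intro e he
        exact hRY e (mem_inter.1 he).1 (mem_inter.1 he).2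
      rw [h2, rk_empty] at h1
      omega
    rw [sum_insert hYb, hcomps.sum, card_empty]
    omega

end Pool.Agent.Helper36.JJ
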