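import Pool.Agent.Helper21.JJ.Rows

/-!
# JJ-15: rows and pins (helper21)
-/

set_option autoImplicit false

namespace Pool.Agent.Helper36.JJ

open Finset Module
open Pool.Agent.Helper36.Pin

variable {V : Type} [Fintype V] [DecidableEq V]

private theorem row_pair (t : V × Fin 2 → ℝ) (q : V → Fin 2 → ℝ) (v w : V) :
    ∑ x : V × Fin 2, t x * row q v w x =
      (t (v, 0) - t (w, 0)) * (q v 0 - q w 0) + (t (v, 1) - t (w, 1)) * (q v 1 - q w 1) := by
  rw [Fintype.sum_prod_type_right, Fin.sum_univ_two]
  have h : ∀ i : Fin 2, ∑ u : V, t (u, i) * row q v w (u, i) =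
      (t (v, i) - t (w, i)) * (q v i - q w i) := by
    intro i
    have h1 : ∀ u : V, t (u, i) * row q v w (u, i) =
        (if u = v then t (u, i) * (q v i - q w i) else 0) -
          (if u = w then t (u, i) * (q v i - q w i) else 0) := by
      intro u
      simp only [row]
      split_ifs <;> ring
    rw [Finset.sum_congr rfl fun u _ => h1 u, Finset.sum_sub_distrib, Finset.sum_ite_eq',
      Finset.sum_ite_eq']
    simp only [Finset.mem_univ, if_true]
    ring
  rw [h 0, h 1]

private theorem grad_X (z : V × Fin 2 → ℝ) (y : V × Fin 2) :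
    grad (MvPolynomial.X y) z = Pi.single y 1 := by
  funext x
  simp only [grad, MvPolynomial.pderiv_X]
  by_cases h : x = y
  · subst h; simp
  · rw [Pi.single_eq_of_ne h, Pi.single_eq_of_ne (Ne.symm h), map_zero]

/-- rows and pins -/
theorem pinned_grads (B : Finset (Sym2 V)) (x₀ x₁ : V) (z : V × Fin 2 → ℝ)
    (hrow : LinearIndependent ℝ (fun e : B => rowR (cfg z) (e : Sym2 V)))
    (hne : z (x₁, 0) ≠ z (x₀, 0)) (h01 : x₀ ≠ x₁) :
    LinearIndependent ℝ (fun k => grad (pinF B x₀ x₁ k) z) := by
  rw [Fintype.linearIndependent_iff] at hrow ⊢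
  intro g hg
  rw [Fintype.sum_sum_type] at hg
  simp only [pinF, Sum.elim_inl, Sum.elim_inr, Fin.sum_univ_three, Matrix.cons_val_zero,
    Matrix.cons_val_one, Matrix.cons_val, grad_X, grad_lenE] at hg
  set a := g (Sum.inr 0)
  set b := g (Sum.inr 1)
  set c := g (Sum.inr 2)
  have key : ∀ t : V × Fin 2 → ℝ, (∀ v w : V,
      (t (v, 0) - t (w, 0)) * (z (v, 0) - z (w, 0)) + (t (v, 1) - t (w, 1)) *
        (z (v, 1) - z (w, 1)) = 0) →
      a * t (x₀, 0) + b * t (x₀, 1) + c * t (x₁, 1) = 0 := by
    intro t ht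
    have h1 := congrArg (fun u : V × Fin 2 → ℝ => ∑ x, t x * u x) hg
    simp only [Pi.add_apply, Finset.sum_apply, Pi.smul_apply, smul_eq_mul, Pi.zero_apply, mul_zero,
      Finset.sum_const_zero, mul_add, Finset.sum_add_distrib] at h1
    have h2 : ∑ x : V × Fin 2, t x * ∑ e : B, g (Sum.inl e) * (2 * rowR (cfg z) (e : Sym2 V) x) =
        0 := by
      simp only [Finset.mul_sum]
      rw [Finset.sum_comm]
      apply Finset.sum_eq_zero
      intro e _
      have h3 : ∑ x : V × Fin 2, t x * rowR (cfg z) (e : Sym2 V) x = 0 := by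
        unfold rowR
        rw [row_pair]
        exact ht _ _
      have h4 : ∀ x : V × Fin 2, t x * (g (Sum.inl e) * (2 * rowR (cfg z) (e : Sym2 V) x)) =
          (2 * g (Sum.inl e)) * (t x * rowR (cfg z) (e : Sym2 V) x) := fun x => by ring
      rw [Finset.sum_congr rfl fun x _ => h4 x, ← Finset.mul_sum, h3, mul_zero]
    have h5 : ∀ (d : ℝ) (y : V × Fin 2),
        ∑ x : V × Fin 2, t x * (d * (Pi.single y (1 : ℝ) : V × Fin 2 → ℝ) x) = d * t y := by
      intro d y
      rw [Finset.sum_eq_single y]
      · rw [Pi.single_eq_same]; ring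
      · intro x _ hx
        rw [Pi.single_eq_of_ne hx]; ring
      · intro h; exact absurd (Finset.mem_univ _) h
    rw [h2, h5, h5, h5] at h1
    linarith
  have ha : a = 0 := by
    have := key (fun x => if x.2 = 0 then 1 else 0) (by intro v w; simp)
    simpa using this
  have hbc : b + c = 0 := by
    have := key (fun x => if x.2 = 1 then 1 else 0) (by intro v w; simp)
    simpa using this
  have hrot : -(a * z (x₀, 1)) + b * z (x₀, 0) + c * z (x₁, 0) = 0 := by
    have := key (fun x => if x.2 = 0 then - z (x.1, 1) else z (x.1, 0)) (by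
      intro v w
      simp
      ring)
    simpa using this
  have hc : c = 0 := by
    have h1 : c * (z (x₁, 0) - z (x₀, 0)) = 0 := by
      rw [ha] at hrot
      linear_combination hrot - z (x₀, 0) * hbc
    rcases mul_eq_zero.1 h1 with h | h
    · exact h
    · exact absurd (sub_eq_zero.1 h) hne
  have hb : b = 0 := by linarith
  have hB : ∀ e : B, g (Sum.inl e) = 0 := by
    intro e
    have h1 := hrow (fun e => 2 * g (Sum.inl e)) (by
      rw [ha, hb, hc] at hg
      simp only [zero_smul, add_zero] at hg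
      rw [← hg]
      apply Finset.sum_congr rfl
      intro e _
      rw [smul_smul, mul_comm]) e
    linarith
  rintro (e | j)
  · exact hB e
  · fin_cases j
    · exact ha
    · exact hb
    · exact hc

end Pool.Agent.Helper36.JJ
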